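import Pool.Agent.helper45.SGK.Spec

/-!
# Project SGK (MP_069684_lc), row AV0: the family of the input positions
-/

set_option autoImplicit false

namespace Pool.Agent.SGK

open Finset Pool.Agent.helper38.Neg Pool.Agent.helper55.NT
open Pool.Agent.SGC (Sg SCirc Ext Mv hw RN Solv stA stB)

/-- input gates and one constant gate -/
def AV0_C (n : ℕ) : SCirc n (Option (Fin n)) where
  lab := fun g => g
  kids := fun _ => ∅
  fn := fun _ _ => false
  rank := fun _ => 0
  acyc := fun _ h hh => absurd hh (Finset.notMem_empty h)
  out := none

theorem AV0 : AV0_stmt := by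
  intro k _ n V
  refine ⟨Option (Fin n), inferInstance, AV0_C n, some, ?_, Option.some_injective _, ?_, ?_⟩
  · rw [Fintype.card_option, Fintype.card_fin]
  · intro p x
    exact SCirc.val_some (AV0_C n) x (some p) p rfl
  · intro γ _
    refine ⟨Equiv.optionCongr (Function.Involutive.toPerm (gl γ) (gl_gl γ)), ?_, ?_, ?_, ?_⟩
    · rintro (_ | p)
      · rfl
      · rfl
    · intro g
      show (∅ : Finset (Option (Fin n))) = (∅ : Finset (Option (Fin n))).map _
      rw [Finset.map_empty]
    · intro g
      rfl
    · intro p
      rfl

end Pool.Agent.SGK
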