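import Pool.Agent.helper45.SGK.Spec

/-!
# Project SGK (MP_069684_lc), row LED: the labels of the edges
-/

set_option autoImplicit false

namespace Pool.Agent.SGK

open Finset Pool.Agent.helper38.Neg Pool.Agent.helper55.NT
open Pool.Agent.SGC (Sg SCirc Ext Mv hw RN Solv stA stB)

/-- the positions of the constraints on the scope `i` -/
def LED_K {k : ℕ} [NeZero k] {n : ℕ} (i : Fin k → Fin (tw k n)) : Finset (Fin n) :=
  (univ : Finset (Wd k)).image fun a => ps (i, a)

theorem LED_mem {k : ℕ} [NeZero k] {n : ℕ} (i : Fin k → Fin (tw k n)) (p : Fin n) :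
    p ∈ LED_K i ↔ ∃ a : Wd k, ps (i, a) = p := by
  unfold LED_K
  rw [mem_image]
  constructor
  · rintro ⟨a, -, h⟩
    exact ⟨a, h⟩
  · rintro ⟨a, h⟩
    exact ⟨a, mem_univ _, h⟩

theorem LED_card {k : ℕ} [NeZero k] {n : ℕ} (i : Fin k → Fin (tw k n)) : (LED_K i).card ≤ 2 ^ k := by
  refine card_image_le.trans (le_of_eq ?_)
  rw [card_univ, Fintype.card_fun, ZMod.card, Fintype.card_fin]

theorem LED_gl {k : ℕ} [NeZero k] {n : ℕ} (i : Fin k → Fin (tw k n)) (γ : Sg (tw k n)) (p : Fin n) (h : p ∈ LED_K i) :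
    gl γ p ∈ LED_K i := by
  obtain ⟨a, rfl⟩ := (LED_mem i p).1 h
  rw [gl_ps, LED_mem]
  exact ⟨_, rfl⟩

theorem LED_sg {k : ℕ} [NeZero k] {n : ℕ} (i : Fin k → Fin (tw k n)) (x y : Fin n → Bool)
    (h : ∀ p ∈ LED_K i, x p = y p) : sg x i = sg y i := by
  unfold sg
  refine filter_congr fun a _ => ?_
  rw [h _ ((LED_mem i _).2 ⟨a, rfl⟩)]

theorem LED_lab {k : ℕ} [NeZero k] (cr : Finset (Wd k) → Wd k) (P : Finset (Wd k)) {n : ℕ} (e : Es k (tw k n))
    (x y : Fin n → Bool) (h : ∀ p ∈ LED_K e.1, x p = y p) : lab cr P x e = lab cr P y e := by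
  have h1 : rel P x e.1 = rel P y e.1 := by
    unfold rel
    rw [LED_sg e.1 x y h]
  unfold lab
  rw [h1]

theorem LED (hAV0 : AV0_stmt) (hAVL : AVL_stmt) (hLAB : LAB_stmt) : LED_stmt := by
  intro k _ cr P hcr n V
  have h0 := hAV0 k n V
  have h1 := hAVL k n V (Fin n) (Es k (tw k n) × ZMod 2) (actP k n) (actE k (tw k n)) (fun p x => x p) (n + 1) (2 ^ k)
    (fun w => LED_K w.1.1) (famE cr P n) h0 (fun w => LED_card w.1.1) ?_ ?_ ?_
  · rw [Fintype.card_fin] at h1
    exact h1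
  · intro γ _ p w
    show p ∈ LED_K w.1.1 ↔ gl γ p ∈ LED_K w.1.1
    constructor
    · exact LED_gl _ γ p
    · intro h
      have h2 := LED_gl _ γ _ h
      rwa [gl_gl] at h2
  · intro γ _ w x
    have h2 := (hLAB k cr P n γ x hcr).2 w.1
    show decide (lab cr P (x ∘ gl γ) w.1 = some w.2) =
      decide (lab cr P x w.1 = some (w.2 + gh γ (ov w.1.1 (some w.1.2.1)) + gh γ (ov w.1.1 w.1.2.2)))
    rw [h2, decide_eq_decide]
    cases hl : lab cr P x w.1 with
    | none => simp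
    | some u =>
      rw [Option.map_some, Option.some_inj, Option.some_inj]
      have h3 : ∀ a b c d : ZMod 2, a + b + c = d ↔ a = d + b + c := by decide
      exact h3 _ _ _ _
  · intro w x y h
    show decide (lab cr P x w.1 = some w.2) = decide (lab cr P y w.1 = some w.2)
    rw [LED_lab cr P w.1 x y h]

end Pool.Agent.SGK
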