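import Pool.Agent.helper45.SGK.Spec

/-!
# Project SGK (MP_069684_lc), row LST: the frames after the edges of a list
-/

set_option autoImplicit false

namespace Pool.Agent.SGK

open Finset Pool.Agent.helper38.Neg Pool.Agent.helper55.NT
open Pool.Agent.SGC (Sg SCirc Ext Mv hw RN Solv stA stB)

theorem LST_mono {k n : ℕ} [NeZero k] {V : Submodule (ZMod 2) (Sg (tw k n))} {W : Type} {act : Act (tw k n) W}
    {F : W → Fn n} {m m' : ℕ} (h : Av V act F m) (hm : m ≤ m') : Av V act F m' := by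
  obtain ⟨G, iG, C, emb, h1, h2, h3, h4⟩ := h
  exact ⟨G, iG, C, emb, h1.trans hm, h2, h3, h4⟩

theorem LST_snoc {k : ℕ} [NeZero k] (cr : Finset (Wd k) → Wd k) (P : Finset (Wd k)) {n : ℕ} (x : Fin n → Bool)
    (L : List (Es k (tw k n))) (e : Es k (tw k n)) :
    frs cr P x (L ++ [e]) = mrg (frs cr P x L) (ov e.1 (some e.2.1)) (ov e.1 e.2.2) (lab cr P x e) := by
  unfold frs
  rw [List.foldl_append]
  rfl

/-- the pairs of vertices which are used -/
def LST_prs {t : ℕ} (a b p q : Fin (t + 1)) : Finset (Fin (t + 1) × Fin (t + 1)) :=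
  {(p, q), (p, a), (b, q), (p, b), (a, q), (a, b)}

theorem LST_mrg {t : ℕ} (st st' : Fr t) (a b p q : Fin (t + 1)) (l : Option (ZMod 2))
    (h : ∀ z ∈ LST_prs a b p q, st z.1 z.2 = st' z.1 z.2) : mrg st a b l p q = mrg st' a b l p q := by
  have h1 : st p q = st' p q := h (p, q) (by simp [LST_prs])
  have h2 : st p a = st' p a := h (p, a) (by simp [LST_prs])
  have h3 : st b q = st' b q := h (b, q) (by simp [LST_prs])
  have h4 : st p b = st' p b := h (p, b) (by simp [LST_prs])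
  have h5 : st a q = st' a q := h (a, q) (by simp [LST_prs])
  have h6 : st a b = st' a b := h (a, b) (by simp [LST_prs])
  unfold mrg
  rw [h1, h2, h3, h4, h5, h6]

theorem LST_opt (o o' : Option (ZMod 2)) (h : ∀ β : ZMod 2, decide (o = some β) = decide (o' = some β)) : o = o' := by
  apply Option.ext
  intro β
  have h1 := h β
  rw [decide_eq_decide] at h1
  rw [h1]

open Classical in
/-- the gates which are used -/
noncomputable def LST_K {k n : ℕ} [NeZero k] (e : Es k (tw k n)) (w : Fin (tw k n + 1) × Fin (tw k n + 1) × ZMod 2) :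
    Finset ((Fin n ⊕ (Es k (tw k n) × ZMod 2)) ⊕ (Fin (tw k n + 1) × Fin (tw k n + 1) × ZMod 2)) :=
  (LST_prs (ov e.1 (some e.2.1)) (ov e.1 e.2.2) w.1 w.2.1 ×ˢ (univ : Finset (ZMod 2))).image
      (fun z => Sum.inr (z.1.1, z.1.2, z.2)) ∪
    (univ : Finset (ZMod 2)).image fun β => Sum.inl (Sum.inr (e, β))

theorem LST_card {k n : ℕ} [NeZero k] (e : Es k (tw k n)) (w : Fin (tw k n + 1) × Fin (tw k n + 1) × ZMod 2) :
    (LST_K e w).card ≤ 14 := by
  classical
  unfold LST_K
  refine (card_union_le _ _).trans ?_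
  have h1 : (LST_prs (ov e.1 (some e.2.1)) (ov e.1 e.2.2) w.1 w.2.1).card ≤ 6 := card_le_six
  have h2 : (univ : Finset (ZMod 2)).card = 2 := by rw [card_univ, ZMod.card]
  refine (Nat.add_le_add card_image_le card_image_le).trans ?_
  rw [card_product, h2]
  omega

theorem LST_mem_inr {k n : ℕ} [NeZero k] (e : Es k (tw k n)) (w : Fin (tw k n + 1) × Fin (tw k n + 1) × ZMod 2)
    (p q : Fin (tw k n + 1)) (β : ZMod 2) :
    Sum.inr (p, q, β) ∈ LST_K e w ↔ (p, q) ∈ LST_prs (ov e.1 (some e.2.1)) (ov e.1 e.2.2) w.1 w.2.1 := by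
  classical
  unfold LST_K
  rw [mem_union, mem_image, mem_image]
  constructor
  · rintro (⟨⟨⟨p', q'⟩, β'⟩, h1, h2⟩ | ⟨β', -, h2⟩)
    · rw [mem_product] at h1
      have h3 := Sum.inr.inj h2
      have h4 : p' = p := congrArg Prod.fst h3
      have h5 : q' = q := congrArg (fun t => t.2.1) h3
      rw [← h4, ← h5]
      exact h1.1
    · exact absurd h2 (by simp)
  · intro h
    exact Or.inl ⟨((p, q), β), mem_product.2 ⟨h, mem_univ _⟩, rfl⟩

theorem LST_mem_inl {k n : ℕ} [NeZero k] (e e' : Es k (tw k n)) (w : Fin (tw k n + 1) × Fin (tw k n + 1) × ZMod 2)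
    (β : ZMod 2) : Sum.inl (Sum.inr (e', β)) ∈ LST_K e w ↔ e' = e := by
  classical
  unfold LST_K
  rw [mem_union, mem_image, mem_image]
  constructor
  · rintro (⟨⟨⟨p', q'⟩, β'⟩, h1, h2⟩ | ⟨β', -, h2⟩)
    · exact absurd h2 (by simp)
    · have h3 := Sum.inr.inj (Sum.inl.inj h2)
      exact (congrArg Prod.fst h3).symm
  · rintro rfl
    exact Or.inr ⟨β, mem_univ _, rfl⟩

theorem LST_mem_pos {k n : ℕ} [NeZero k] (e : Es k (tw k n)) (w : Fin (tw k n + 1) × Fin (tw k n + 1) × ZMod 2)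
    (p : Fin n) : Sum.inl (Sum.inl p) ∉ LST_K e w := by
  classical
  unfold LST_K
  rw [mem_union, mem_image, mem_image]
  rintro (⟨⟨⟨p', q'⟩, β'⟩, h1, h2⟩ | ⟨β', -, h2⟩)
  · exact absurd h2 (by simp)
  · exact absurd (Sum.inl.inj h2) (by simp)

theorem LST_eqv (hFRA : FRA_stmt) {k : ℕ} [NeZero k] (cr : Finset (Wd k) → Wd k) (P : Finset (Wd k)) (hcr : Crep cr) {n : ℕ}
    (L : List (Es k (tw k n))) (γ : Sg (tw k n)) (w : Fin (tw k n + 1) × Fin (tw k n + 1) × ZMod 2) (x : Fin n → Bool) :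
    famS cr P n L w (x ∘ gl γ) = famS cr P n L ((actS (tw k n)).f γ w) x := by
  have h2 : frs cr P (x ∘ gl γ) L w.1 w.2.1 = (frs cr P x L w.1 w.2.1).map fun u => u + gh γ w.1 + gh γ w.2.1 := by
    rw [(hFRA k cr P n x L hcr).2.2 γ]
  show decide (frs cr P (x ∘ gl γ) L w.1 w.2.1 = some w.2.2) =
    decide (frs cr P x L w.1 w.2.1 = some (w.2.2 + gh γ w.1 + gh γ w.2.1))
  rw [h2, decide_eq_decide]
  cases hl : frs cr P x L w.1 w.2.1 with
  | none => simp
  | some u =>
    rw [Option.map_some, Option.some_inj, Option.some_inj]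
    have h3 : ∀ a b c d : ZMod 2, a + b + c = d ↔ a = d + b + c := by decide
    exact h3 _ _ _ _

theorem LST_cardS (t : ℕ) : Fintype.card (Fin (t + 1) × Fin (t + 1) × ZMod 2) = 2 * (t + 1) ^ 2 := by
  rw [Fintype.card_prod, Fintype.card_prod, Fintype.card_fin, ZMod.card]
  ring

theorem LST (hAVL : AVL_stmt) (hAVR : AVR_stmt) (hFRA : FRA_stmt) : LST_stmt := by
  intro k _ cr P hcr n V m hm L
  have hcW : Fintype.card (Fin n ⊕ (Es k (tw k n) × ZMod 2)) = n + Fintype.card (Es k (tw k n) × ZMod 2) := by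
    rw [Fintype.card_sum, Fintype.card_fin]
  induction L using List.reverseRecOn with
  | nil =>
    have h1 := hAVL k n V (Fin n ⊕ (Es k (tw k n) × ZMod 2)) (Fin (tw k n + 1) × Fin (tw k n + 1) × ZMod 2)
      ((actP k n).sum (actE k (tw k n))) (actS (tw k n)) (Sum.elim (fun p x => x p) (famE cr P n)) m 0 (fun _ => ∅)
      (famS cr P n []) hm (fun _ => by rw [card_empty]) ?_ ?_ ?_
    · refine LST_mono h1 ?_
      rw [LST_cardS, hcW, List.length_nil]
      have h2 : 2 * (tw k n + 1) ^ 2 * (2 ^ 0 + 1) ≤ 2 ^ 15 * (2 * (tw k n + 1) ^ 2) := by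
        have h3 : 2 * (tw k n + 1) ^ 2 * (2 ^ 0 + 1) = 2 * (2 * (tw k n + 1) ^ 2) := by ring
        rw [h3]
        exact Nat.mul_le_mul_right _ (by norm_num)
      have h4 : (0 + 1) * (n + Fintype.card (Es k (tw k n) × ZMod 2) + 2 ^ 15 * (2 * (tw k n + 1) ^ 2)) =
          n + Fintype.card (Es k (tw k n) × ZMod 2) + 2 ^ 15 * (2 * (tw k n + 1) ^ 2) := by ring
      rw [h4]
      omega
    · intro γ _ w w'
      exact ⟨fun h => absurd h (notMem_empty _), fun h => absurd h (notMem_empty _)⟩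
    · intro γ _ w x
      exact LST_eqv hFRA cr P hcr [] γ w x
    · intro w x y _
      have h2 : ∀ z : Fin n → Bool, frs cr P z ([] : List (Es k (tw k n))) = fr0 _ := by
        intro z
        unfold frs
        rw [List.foldl_nil]
      show decide (frs cr P x [] w.1 w.2.1 = some w.2.2) = decide (frs cr P y [] w.1 w.2.1 = some w.2.2)
      rw [h2 x, h2 y]
  | append_singleton L e ih =>
    have h1 := hAVL k n V ((Fin n ⊕ (Es k (tw k n) × ZMod 2)) ⊕ (Fin (tw k n + 1) × Fin (tw k n + 1) × ZMod 2))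
      (Fin (tw k n + 1) × Fin (tw k n + 1) × ZMod 2)
      (((actP k n).sum (actE k (tw k n))).sum (actS (tw k n))) (actS (tw k n))
      (Sum.elim (Sum.elim (fun p x => x p) (famE cr P n)) (famS cr P n L)) _ 14 (fun w => LST_K e w)
      (famS cr P n (L ++ [e])) ih (fun w => LST_card e w) ?_ ?_ ?_
    · have h2 := hAVR k n V _ ((Fin n ⊕ (Es k (tw k n) × ZMod 2)) ⊕ (Fin (tw k n + 1) × Fin (tw k n + 1) × ZMod 2))
        _ (((actP k n).sum (actE k (tw k n))).sum (actS (tw k n))) _ _ (Sum.map Sum.inl id) h1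
        (Sum.map_injective.2 ⟨Sum.inl_injective, Function.injective_id⟩) ?_
      · have h3 : (Sum.elim (Sum.elim (Sum.elim (fun (p : Fin n) (x : Fin n → Bool) => x p) (famE cr P n)) (famS cr P n L))
            (famS cr P n (L ++ [e]))) ∘ (Sum.map Sum.inl id) =
            Sum.elim (Sum.elim (fun (p : Fin n) (x : Fin n → Bool) => x p) (famE cr P n)) (famS cr P n (L ++ [e])) := by
          funext w
          rcases w with w | w
          · rfl
          · rfl
        rw [h3] at h2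
        refine LST_mono h2 ?_
        rw [Fintype.card_sum, LST_cardS, hcW, List.length_append, List.length_singleton]
        have h4 : (L.length + 1 + 1) * (n + Fintype.card (Es k (tw k n) × ZMod 2) + 2 ^ 15 * (2 * (tw k n + 1) ^ 2)) =
            (L.length + 1) * (n + Fintype.card (Es k (tw k n) × ZMod 2) + 2 ^ 15 * (2 * (tw k n + 1) ^ 2)) +
            (n + Fintype.card (Es k (tw k n) × ZMod 2) + 2 ^ 15 * (2 * (tw k n + 1) ^ 2)) := by ring
        have h5 : 2 * (tw k n + 1) ^ 2 * (2 ^ 14 + 1) + 2 * (tw k n + 1) ^ 2 ≤ 2 ^ 15 * (2 * (tw k n + 1) ^ 2) := by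
          have h6 : 2 * (tw k n + 1) ^ 2 * (2 ^ 14 + 1) + 2 * (tw k n + 1) ^ 2 = (2 ^ 14 + 2) * (2 * (tw k n + 1) ^ 2) := by ring
          rw [h6]
          exact Nat.mul_le_mul_right _ (by norm_num)
        rw [h4]
        omega
      · intro γ _ w
        rcases w with w | w
        · rfl
        · rfl
    · intro γ _ w w'
      show w ∈ LST_K e w' ↔ ((((actP k n).sum (actE k (tw k n))).sum (actS (tw k n))).f γ w) ∈ LST_K e ((actS (tw k n)).f γ w')
      rcases w with (p | ⟨e', β⟩) | ⟨p, q, β⟩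
      · constructor
        · intro h
          exact absurd h (LST_mem_pos e w' p)
        · intro h
          exact absurd h (LST_mem_pos e _ _)
      · rw [LST_mem_inl]
        exact (LST_mem_inl e e' _ _).symm
      · rw [LST_mem_inr]
        exact (LST_mem_inr e ((actS (tw k n)).f γ w') p q _).symm
    · intro γ _ w x
      exact LST_eqv hFRA cr P hcr (L ++ [e]) γ w x
    · intro w x y h
      have hl : lab cr P x e = lab cr P y e :=
        LST_opt _ _ fun β => h (Sum.inl (Sum.inr (e, β))) ((LST_mem_inl e e w β).2 rfl)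
      have hs : ∀ z ∈ LST_prs (ov e.1 (some e.2.1)) (ov e.1 e.2.2) w.1 w.2.1,
          frs cr P x L z.1 z.2 = frs cr P y L z.1 z.2 := by
        intro z hz
        exact LST_opt _ _ fun β => h (Sum.inr (z.1, z.2, β)) ((LST_mem_inr e w z.1 z.2 β).2 hz)
      show decide (frs cr P x (L ++ [e]) w.1 w.2.1 = some w.2.2) = decide (frs cr P y (L ++ [e]) w.1 w.2.1 = some w.2.2)
      rw [LST_snoc, LST_snoc, hl, LST_mrg _ _ _ _ _ _ _ hs]

end Pool.Agent.SGK
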