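import Pool.Agent.helper45.SGK.Spec

/-!
# Project SGK (MP_069684_lc), row NFS: the normal form is equivalent to the instance
-/

set_option autoImplicit false

namespace Pool.Agent.SGK

open Finset Pool.Agent.helper38.Neg Pool.Agent.helper55.NT
open Pool.Agent.SGC (Sg SCirc Ext Mv hw RN Solv stA stB)

theorem NFS_ps {k : ℕ} [NeZero k] (P : Finset (Wd k)) {n : ℕ} (st : Fr (tw k n)) (x : Fin n → Bool) (c : Cl k (tw k n)) :
    nf P st x (ps c) = true ↔ ∀ z ∈ rel P x c.1, (fun j => z j + nu st (c.1 j) + c.2 j) ∈ P := by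
  have h : ∃ c' : Cl k (tw k n), ps c' = ps c := ⟨c, rfl⟩
  have h1 : h.choose = c := ps_injective h.choose_spec
  unfold nf
  rw [dif_pos h, decide_eq_true_iff, h1]

theorem NFS_rel {k : ℕ} [NeZero k] (P : Finset (Wd k)) {n : ℕ} (x : Fin n → Bool) (i : Fin k → Fin (tw k n)) (z : Wd k) :
    z ∈ rel P x i ↔ ∀ a : Wd k, x (ps (i, a)) = true → z + a ∈ P := by
  unfold rel tr sg
  rw [mem_filter]
  constructor
  · intro h a ha
    exact h.2 a (mem_filter.2 ⟨mem_univ _, ha⟩)
  · intro h
    exact ⟨mem_univ _, fun a ha => h a (mem_filter.1 ha).2⟩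

theorem NFS : NFS_stmt := by
  intro k _ P n st x
  constructor
  · rintro ⟨α, hα⟩
    refine ⟨fun q => α q + nu st q, fun c hc => ?_⟩
    have h1 := hα (c.1, fun j => c.2 j + nu st (c.1 j)) ((NFS_ps P st x _).2 (by
      intro z hz
      have h2 := (NFS_rel P x c.1 z).1 hz c.2 hc
      have h3 : (fun j => z j + nu st (c.1 j) + (c.2 j + nu st (c.1 j))) = z + c.2 := by
        funext j
        have h : ∀ u v w : ZMod 2, u + v + (w + v) = u + w := by decide
        exact h _ _ _
      show (fun j => z j + nu st (c.1 j) + (c.2 j + nu st (c.1 j))) ∈ P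
      rw [h3]
      exact h2))
    have h4 : (fun j => α (c.1 j) + nu st (c.1 j) + c.2 j) = fun j => α (c.1 j) + (c.2 j + nu st (c.1 j)) := by
      funext j
      ring
    show (fun j => α (c.1 j) + nu st (c.1 j) + c.2 j) ∈ P
    rw [h4]
    exact h1
  · rintro ⟨α, hα⟩
    refine ⟨fun q => α q + nu st q, fun c hc => ?_⟩
    have h1 := (NFS_ps P st x c).1 hc (fun j => α (c.1 j)) ((NFS_rel P x c.1 _).2 (by
      intro a ha
      exact hα (c.1, a) ha))
    exact h1

end Pool.Agent.SGK
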